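import Mathlib

set_option autoImplicit false

namespace Pool.Agent.Results.MP_a75ade_an.Counter

open MvPolynomial

/-- interpolation set for type `(n, ν)` -/
def IsInterp (n ν : ℕ) (S : Finset (ℕ × ℕ)) : Prop :=
  S.card = (n + 1) * (n + 2) / 2 + (ν + 1) * (ν + 2) / 2 - 1 ∧
    (∀ j k : ℕ, j + k ≤ n → (j, k) ∈ S) ∧
    (∀ j k l m : ℕ, (j, k) ∈ S → l ≤ j → m ≤ k → (l, m) ∈ S)

/-- `P / Q` is a rational approximant of type `(n, ν)` to `f` corresponding to `S` -/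
def IsApprox (n ν : ℕ) (S : Finset (ℕ × ℕ)) (f : MvPowerSeries (Fin 2) ℂ)
    (P Q : MvPolynomial (Fin 2) ℂ) : Prop :=
  Q ≠ 0 ∧ P.totalDegree ≤ n ∧ Q.totalDegree ≤ ν ∧
    ∀ j k : ℕ, (j, k) ∈ S →
      MvPowerSeries.coeff (Finsupp.single 0 j + Finsupp.single 1 k)
        ((Q : MvPowerSeries (Fin 2) ℂ) * f - (P : MvPowerSeries (Fin 2) ℂ)) = 0

/-- the denominator `G = 1 - z₁²` -/
noncomputable def G : MvPolynomial (Fin 2) ℂ := 1 - X 0 ^ 2

noncomputable def T (m : ℕ) : MvPolynomial (Fin 2) ℂ := ∑ i ∈ Finset.range (m + 1), (X 0 ^ 2) ^ i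

theorem GT (m : ℕ) : G * T m = 1 - (X 0 ^ 2) ^ (m + 1) := by
  unfold G T
  exact mul_neg_geom_sum _ _

theorem coe_sub' (p q : MvPolynomial (Fin 2) ℂ) :
    ((p - q : MvPolynomial (Fin 2) ℂ) : MvPowerSeries (Fin 2) ℂ) = p - q :=
  map_sub coeToMvPowerSeries.ringHom p q

theorem G_inv : (G : MvPowerSeries (Fin 2) ℂ) * (G : MvPowerSeries (Fin 2) ℂ)⁻¹ = 1 := by
  apply MvPowerSeries.mul_inv_cancel
  simp [G, coe_sub']

theorem deg_T (m : ℕ) : (T m).totalDegree ≤ 2 * m := by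
  unfold T
  refine le_trans (totalDegree_finset_sum _ _) (Finset.sup_le fun i hi => ?_)
  rw [← pow_mul, totalDegree_X_pow]
  have := Finset.mem_range.1 hi
  omega

theorem deg_G : G.totalDegree = 2 := by
  apply le_antisymm
  · unfold G
    refine le_trans (totalDegree_sub _ _) ?_
    simp [totalDegree_X_pow]
  · have h : Finsupp.single (0 : Fin 2) 2 ∈ G.support := by
      rw [mem_support_iff]
      unfold G
      rw [coeff_sub, coeff_X_pow, coeff_one, if_neg (by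
        intro h
        have := congrArg (fun f : Fin 2 →₀ ℕ => f 0) h
        simp at this), if_pos rfl]
      simp
    have := le_totalDegree h
    simpa using this

theorem approx_mono (n a b m : ℕ) (S : Finset (ℕ × ℕ))
    (hS : ∀ j k l m : ℕ, (j, k) ∈ S → l ≤ j → m ≤ k → (l, m) ∈ S)
    (hab : a + b ≤ 2) (hn : a + b + 2 * m ≤ n) (hnot : (a + 2 * (m + 1), b) ∉ S) :
    IsApprox n 2 S (G : MvPowerSeries (Fin 2) ℂ)⁻¹ (X 0 ^ a * X 1 ^ b * T m) (X 0 ^ a * X 1 ^ b) := by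
  have hd : (X 0 ^ a * X 1 ^ b : MvPolynomial (Fin 2) ℂ).totalDegree ≤ a + b := by
    refine le_trans (totalDegree_mul _ _) ?_
    rw [totalDegree_X_pow, totalDegree_X_pow]
  refine ⟨mul_ne_zero (pow_ne_zero _ (X_ne_zero _)) (pow_ne_zero _ (X_ne_zero _)), ?_,
    le_trans hd hab, ?_⟩
  · refine le_trans (totalDegree_mul _ _) ?_
    have := deg_T m
    omega
  · intro j k hjk
    have h1 : ((X 0 ^ a * X 1 ^ b : MvPolynomial (Fin 2) ℂ) : MvPowerSeries (Fin 2) ℂ) *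
        (G : MvPowerSeries (Fin 2) ℂ)⁻¹ -
        ((X 0 ^ a * X 1 ^ b * T m : MvPolynomial (Fin 2) ℂ) : MvPowerSeries (Fin 2) ℂ) =
        MvPowerSeries.monomial (Finsupp.single 0 (a + 2 * (m + 1)) + Finsupp.single 1 b) 1 *
          (G : MvPowerSeries (Fin 2) ℂ)⁻¹ := by
      have e1 := congrArg (fun p : MvPolynomial (Fin 2) ℂ => (p : MvPowerSeries (Fin 2) ℂ)) (GT m)
      have e2 := G_inv
      have e3 : MvPowerSeries.monomial (Finsupp.single (0 : Fin 2) (a + 2 * (m + 1)) + Finsupp.single 1 b) (1:ℂ)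
          = MvPowerSeries.X 0 ^ (a + 2 * (m + 1)) * MvPowerSeries.X 1 ^ b := by
        rw [MvPowerSeries.X_pow_eq, MvPowerSeries.X_pow_eq, MvPowerSeries.monomial_mul_monomial, one_mul]
      rw [e3]
      simp only [coe_mul, coe_pow, coe_X, coe_sub', coe_one] at e1 ⊢
      rw [pow_add, pow_mul]
      linear_combination (-(MvPowerSeries.X 0 ^ a * MvPowerSeries.X 1 ^ b *
        (G : MvPowerSeries (Fin 2) ℂ)⁻¹)) * e1 + (MvPowerSeries.X 0 ^ a * MvPowerSeries.X 1 ^ b *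
        (T m : MvPowerSeries (Fin 2) ℂ)) * e2
    rw [h1, MvPowerSeries.coeff_monomial_mul, if_neg]
    intro hle
    apply hnot
    have h2 := hle 0
    have h3 := hle 1
    simp at h2 h3
    exact hS j k _ _ hjk h2 h3

theorem card_tri (n : ℕ) :
    ((Finset.range (n + 1)).biUnion (fun s : ℕ => Finset.HasAntidiagonal.antidiagonal s)).card = (n + 1) * (n + 2) / 2 := by
  rw [Finset.card_biUnion]
  · simp only [Finset.Nat.card_antidiagonal]
    have := Finset.sum_range_id_mul_two (n + 2)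
    rw [Finset.sum_range_succ'] at this
    simp only [add_zero] at this
    have e : (n + 2) * (n + 2 - 1) = (n + 1) * (n + 2) := by
      rw [show n + 2 - 1 = n + 1 by omega]; ring
    omega
  · intro s _ t _ hst
    rw [Function.onFun, Finset.disjoint_left]
    intro p hp hq
    rw [Finset.HasAntidiagonal.mem_antidiagonal] at hp hq
    exact hst (hp.symm.trans hq)

theorem missing (m : ℕ) (S : Finset (ℕ × ℕ)) (hS : IsInterp (2 * m + 2) 2 S) :
    (2 * m + 4, 0) ∉ S ∨ (2 * m + 3, 1) ∉ S ∨ (2 * m + 2, 2) ∉ S := by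
  by_contra h
  push Not at h
  obtain ⟨h1, h2, h3⟩ := h
  obtain ⟨hc, ht, hd⟩ := hS
  set A := (Finset.range (2 * m + 2 + 1)).biUnion (fun s : ℕ => Finset.HasAntidiagonal.antidiagonal s) with hA
  set B : Finset (ℕ × ℕ) := {(2 * m + 3, 0), (2 * m + 4, 0), (2 * m + 2, 1), (2 * m + 3, 1),
    (2 * m + 1, 2), (2 * m + 2, 2)} with hB
  have hBc : B.card = 6 := by
    rw [hB]
    repeat rw [Finset.card_insert_of_notMem (by simp)]
    simp
  have hmemA : ∀ p : ℕ × ℕ, p ∈ A ↔ p.1 + p.2 ≤ 2 * m + 2 := by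
    intro p
    simp [hA, Nat.lt_succ_iff]
  have hdis : Disjoint A B := by
    rw [Finset.disjoint_right]
    intro p hp
    rw [hmemA]
    simp only [hB, Finset.mem_insert, Finset.mem_singleton] at hp
    rcases hp with rfl | rfl | rfl | rfl | rfl | rfl <;> simp
  have hsub : A ∪ B ⊆ S := by
    intro p hp
    rcases Finset.mem_union.1 hp with hp | hp
    · exact ht p.1 p.2 ((hmemA p).1 hp)
    · simp only [hB, Finset.mem_insert, Finset.mem_singleton] at hp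
      rcases hp with rfl | rfl | rfl | rfl | rfl | rfl
      · exact hd _ _ _ _ h1 (by omega) le_rfl
      · exact h1
      · exact hd _ _ _ _ h2 (by omega) le_rfl
      · exact h2
      · exact hd _ _ _ _ h3 (by omega) le_rfl
      · exact h3
  have := Finset.card_le_card hsub
  rw [Finset.card_union_of_disjoint hdis, hBc, hA, card_tri, hc] at this
  omega

theorem eval_T (m : ℕ) : ∃ r : ℝ, 1 ≤ r ∧ eval ![2, 1] (T m) = (r : ℂ) := by
  refine ⟨∑ i ∈ Finset.range (m + 1), (2 ^ 2) ^ i, ?_, by simp [T]⟩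
  rw [Finset.sum_range_succ']
  have : (0:ℝ) ≤ ∑ i ∈ Finset.range m, (2 ^ 2) ^ (i + 1) := by positivity
  simp only [pow_zero]
  linarith

theorem exists_bad (n : ℕ) (S : Finset (ℕ × ℕ)) (hS : IsInterp n 2 S) :
    ∃ P Q : MvPolynomial (Fin 2) ℂ, IsApprox n 2 S (G : MvPowerSeries (Fin 2) ℂ)⁻¹ P Q ∧
      eval ![2, 1] Q ≠ 0 ∧ ((∃ m, n = 2 * m + 2) →
        ∃ r : ℝ, 1 ≤ r ∧ eval ![2, 1] P / eval ![2, 1] Q = (r : ℂ)) := by
  have key : ∀ a b m : ℕ, a + b ≤ 2 → a + b + 2 * m ≤ n → (a + 2 * (m + 1), b) ∉ S →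
      ∃ P Q : MvPolynomial (Fin 2) ℂ, IsApprox n 2 S (G : MvPowerSeries (Fin 2) ℂ)⁻¹ P Q ∧
      eval ![2, 1] Q ≠ 0 ∧ ((∃ m, n = 2 * m + 2) →
        ∃ r : ℝ, 1 ≤ r ∧ eval ![2, 1] P / eval ![2, 1] Q = (r : ℂ)) := by
    intro a b m h1 h2 h3
    have hq : eval ![2, 1] (X 0 ^ a * X 1 ^ b : MvPolynomial (Fin 2) ℂ) ≠ 0 := by simp
    refine ⟨_, _, approx_mono n a b m S hS.2.2 h1 h2 h3, hq, fun _ => ?_⟩
    obtain ⟨r, hr, he⟩ := eval_T m
    refine ⟨r, hr, ?_⟩
    rw [map_mul, mul_div_cancel_left₀ _ hq, he]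
  by_cases h : ∃ m, n = 2 * m + 2
  · obtain ⟨m, rfl⟩ := h
    rcases missing m S hS with h1 | h1 | h1
    · exact key 0 0 (m + 1) (by omega) (by omega) (by rwa [show 0 + 2 * (m + 1 + 1) = 2 * m + 4 by ring])
    · exact key 1 1 m (by omega) (by omega) (by rwa [show 1 + 2 * (m + 1) = 2 * m + 3 by ring])
    · exact key 0 2 m (by omega) (by omega) (by rwa [show 0 + 2 * (m + 1) = 2 * m + 2 by ring])
  · have hG : eval ![2, 1] G ≠ 0 := by simp [G]; norm_num
    refine ⟨1, G, ⟨?_, by simp, deg_G.le, ?_⟩, hG, fun h' => absurd h' h⟩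
    · intro h0; rw [h0] at hG; simp at hG
    · intro j k _
      rw [G_inv]; simp

theorem result : G.totalDegree = 2 ∧ eval 0 G ≠ 0 ∧
    ∀ S : ℕ → Finset (ℕ × ℕ), (∀ n, IsInterp n 2 (S n)) →
      ∃ P Q : ℕ → MvPolynomial (Fin 2) ℂ,
        (∀ n, IsApprox n 2 (S n) (G : MvPowerSeries (Fin 2) ℂ)⁻¹ (P n) (Q n)) ∧
        ∃ z : Fin 2 → ℂ, eval z G ≠ 0 ∧ (∀ n, eval z (Q n) ≠ 0) ∧
          ¬ Filter.Tendsto (fun n => eval z (P n) / eval z (Q n)) Filter.atTop
            (nhds (1 / eval z G)) := by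
  refine ⟨deg_G, by simp [G], fun S hS => ?_⟩
  choose P Q h1 h2 h3 using fun n => exists_bad n (S n) (hS n)
  refine ⟨P, Q, h1, ![2, 1], by simp [G]; norm_num, h2, fun h => ?_⟩
  have h4 := (Complex.continuous_re.tendsto _).comp h
  have h5 : (1 / eval ![2, 1] G).re < 0 := by
    have : (1 / eval ![2, 1] G : ℂ) = ((-1 / 3 : ℝ) : ℂ) := by
      simp [G]; norm_num
    rw [this, Complex.ofReal_re]; norm_num
  obtain ⟨N, hN⟩ := Filter.eventually_atTop.1 (h4.eventually (gt_mem_nhds h5))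
  have h6 := hN (2 * N + 2) (by omega)
  obtain ⟨r, hr, he⟩ := h3 (2 * N + 2) ⟨N, rfl⟩
  simp only [Function.comp, he, Complex.ofReal_re] at h6
  linarith

end Pool.Agent.Results.MP_a75ade_an.Counter
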